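import Pool.Agent.Helper84.P11.Tm

/-!
# Project P11: lists of terms given by one natural number
-/

set_option autoImplicit false

namespace Pool.Agent.Helper4.P11

open Pool.Agent.Helper84.P11 (Tm)

/-- The list of `n` terms coded by the number `N`: five digits in base `20000`, each with offset `10000`, for every term. -/
def decL : ℕ → ℕ → List Tm
  | 0, _ => []
  | n + 1, N => (((N % 20000 : ℕ) : ℤ) - 10000, ((N / 20000 % 20000 : ℕ) : ℤ) - 10000, ((N / 20000 ^ 2 % 20000 : ℕ) : ℤ) - 10000,
      ((N / 20000 ^ 3 % 20000 : ℕ) : ℤ) - 10000, ((N / 20000 ^ 4 % 20000 : ℕ) : ℤ) - 10000) :: decL n (N / 20000 ^ 5)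

end Pool.Agent.Helper4.P11
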