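import Pool.Agent.Helper4.P11.HkCore

/-!
# Project P11: the rows of the Hecke operator `T_13`
-/

set_option autoImplicit false
set_option maxRecDepth 100000

namespace Pool.Agent.Helper4.P11

open Pool.Agent.Helper28.WK (SymP)
open Pool.Agent.Helper14.CV (Tl)
open Pool.Agent.Helper84.P11
open Pool.Agent.Helper2.P11 (pf11)

theorem hk13_0 (r s : ℕ) (G : ℤ → ℤ → ZMod 11)
    (hG : SymP 11 r (s + 1) G) :
    (edge11 0 1 0 0 1 (Tl 13 (11 ^ r) G) : Fn11 (11 ^ r) (11 ^ s)) = ∑ f : Fin 3, opL (T13M 0 f) (pf11 G f) :=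
  row3 13 (by norm_num) (by norm_num) [-6, -5, -4, -3, -2, -1, 0, 1, 2, 3, 4, 5, 6] (by decide +kernel) rfl
    (by decide +kernel) 1 0 0 1 (Or.inl (by norm_num)) (Or.inr (by norm_num)) (T13M 0) (by decide +kernel) r s G hG

theorem hk13_1 (r s : ℕ) (G : ℤ → ℤ → ZMod 11)
    (hG : SymP 11 r (s + 1) G) :
    (edge11 0 1 3 0 1 (Tl 13 (11 ^ r) G) : Fn11 (11 ^ r) (11 ^ s)) = ∑ f : Fin 3, opL (T13M 1 f) (pf11 G f) :=
  row3 13 (by norm_num) (by norm_num) [-6, -5, -4, -3, -2, -1, 0, 1, 2, 3, 4, 5, 6] (by decide +kernel) rfl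
    (by decide +kernel) 1 3 0 1 (Or.inl (by norm_num)) (Or.inr (by norm_num)) (T13M 1) (by decide +kernel) r s G hG

theorem hk13_2 (r s : ℕ) (G : ℤ → ℤ → ZMod 11)
    (hG : SymP 11 r (s + 1) G) :
    (edge11 0 1 2 1 3 (Tl 13 (11 ^ r) G) : Fn11 (11 ^ r) (11 ^ s)) = ∑ f : Fin 3, opL (T13M 2 f) (pf11 G f) :=
  row3 13 (by norm_num) (by norm_num) [-6, -5, -4, -3, -2, -1, 0, 1, 2, 3, 4, 5, 6] (by decide +kernel) rfl
    (by decide +kernel) 1 2 1 3 (Or.inl (by norm_num)) (Or.inl (by norm_num)) (T13M 2) (by decide +kernel) r s G hG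

/-- HK, `l = 13`. -/
theorem hHk13 : THkL 13 T13M := by
  intro r s G hG i
  fin_cases i
  · exact hk13_0 r s G hG
  · exact hk13_1 r s G hG
  · exact hk13_2 r s G hG

end Pool.Agent.Helper4.P11
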