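import Pool.Agent.Helper4.P11.M_Hk23_0
import Pool.Agent.Helper4.P11.M_Hk23_1
import Pool.Agent.Helper4.P11.M_Hk23_2

/-!
# Project P11: the rows of the Hecke operator `T_23`
-/

set_option autoImplicit false
set_option maxRecDepth 100000

namespace Pool.Agent.Helper4.P11

open Pool.Agent.Helper28.WK (SymP)
open Pool.Agent.Helper14.CV (Tl)
open Pool.Agent.Helper84.P11
open Pool.Agent.Helper2.P11 (pf11)

/-- HK, `l = 23`. -/
theorem hHk23 : THkL 23 T23M := by
  intro r s G hG i
  fin_cases i
  · exact hk23_0 r s G hG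
  · exact hk23_1 r s G hG
  · exact hk23_2 r s G hG

end Pool.Agent.Helper4.P11
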