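import Pool.Agent.Helper4.P11.M_Hk2
import Pool.Agent.Helper4.P11.M_Hk3
import Pool.Agent.Helper4.P11.M_Hk5
import Pool.Agent.Helper4.P11.M_Hk7
import Pool.Agent.Helper4.P11.M_Hk13
import Pool.Agent.Helper4.P11.M_Hk17
import Pool.Agent.Helper4.P11.M_Hk19
import Pool.Agent.Helper4.P11.M_Hk23
import Pool.Agent.Helper4.P11.M_Hk29
import Pool.Agent.Helper4.P11.M_Hk31
import Pool.Agent.Helper4.P11.M_Hk37
import Pool.Agent.Helper4.P11.M_Hk41
import Pool.Agent.Helper4.P11.M_Hk47

/-!
# Project P11: the rows of the Hecke operators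
-/

set_option autoImplicit false

namespace Pool.Agent.Helper4.P11

/-- HK. -/
theorem hHk : THk := by
  intro l hl
  simp only [PrM, List.mem_cons, List.not_mem_nil, or_false] at hl
  rcases hl with rfl | rfl | rfl | rfl | rfl | rfl | rfl | rfl | rfl | rfl | rfl | rfl | rfl
  · exact hHk2
  · exact hHk3
  · exact hHk5
  · exact hHk7
  · exact hHk13
  · exact hHk17
  · exact hHk19
  · exact hHk23
  · exact hHk29
  · exact hHk31
  · exact hHk37
  · exact hHk41
  · exact hHk47

end Pool.Agent.Helper4.P11
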