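import Pool.Agent.Helper4.P11.StD
import Pool.Agent.Helper4.P11.GenN
import Pool.Agent.Helper84.P11.D1

/-!
# Project P11: the row of a Hecke operator from a check

Model: `Pool/Agent/Helper4/T7/HkCore.lean`.
-/

set_option autoImplicit false
set_option maxRecDepth 100000

namespace Pool.Agent.Helper4.P11

open Pool.Agent.Helper14.CV (Homog EqC act Tl)
open Pool.Agent.Helper28.WK (SymP)
open Pool.Agent.Helper84.P11
open Pool.Agent.Helper2.P11 (pf11)

private theorem opL_apply11 (L : List Tm) {q q' : ℕ} (F : Fn11 q q') (x : ZMod q) (y : ZMod q') :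
    opL L F x y = (L.map fun t => t.1 • tr11 t.2.1 t.2.2.1 t.2.2.2.1 t.2.2.2.2 F x y).sum := by
  induction L with
  | nil => simp [opL]
  | cons t L ih =>
    have e : opL (t :: L) F x y = (((t.1 : ℤ) : ZMod 11) • op11 t.2.1 t.2.2.1 t.2.2.2.1 t.2.2.2.2) F x y +
        opL L F x y := by
      simp [opL]
    rw [e, ih, List.map_cons, List.sum_cons, zsmul_eq_mul]
    rfl

/-- The list of the terms with their basic paths -/
def TT3 (L : Fin 3 → List Tm) : List (B4 × Tm) :=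
  ((L 0).map fun t => ((1, 0, 0, 1), t)) ++ ((L 1).map fun t => ((1, 3, 0, 1), t)) ++
    ((L 2).map fun t => ((1, 2, 1, 3), t))

/-- One row. -/
theorem row3 (l : ℕ) (hl : l.Prime) (hl11 : l ≠ 11)
    (J : List ℤ) (hJn : J.Nodup) (hJl : J.length = l)
    (hJd : ∀ j ∈ J, ∀ j' ∈ J, (l : ℤ) ∣ j - j' → j = j')
    (u1 u2 v1 v2 : ℤ) (hu : u1 ≠ 0 ∨ u2 ≠ 0) (hv : v1 ≠ 0 ∨ v2 ≠ 0) (L : Fin 3 → List Tm)
    (hc : ChkN 1 11 l J u1 u2 v1 v2 (TT3 L))
    (r s : ℕ) (G : ℤ → ℤ → ZMod 11) (hG : SymP 11 r (s + 1) G) :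
    (edge11 0 u1 u2 v1 v2 (Tl l (11 ^ r) G) : Fn11 (11 ^ r) (11 ^ s)) =
      ∑ f : Fin 3, opL (L f) (pf11 G f) := by
  rw [Fin.sum_univ_three]
  funext x y
  have hl0 : (l : ℤ) ≠ 0 := by exact_mod_cast hl.ne_zero
  have hpl : ¬ (11 : ℤ) ∣ (l : ℤ) := by
    intro h
    have h' : (11 : ℕ) ∣ l := by exact_mod_cast h
    exact hl11 (((Nat.prime_dvd_prime_iff_eq (by norm_num) hl).1 h').symm)
  have hF := hkF (ZMod 11) inferInstance r s l G J.toFinset hl hl11 hG
    (by rw [List.toFinset_card_of_nodup hJn, hJl])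
    (fun j hj j' hj' => hJd j (List.mem_toFinset.1 hj) j' (List.mem_toFinset.1 hj'))
    u1 u2 v1 v2 hu hv x y
  rw [List.sum_toFinset _ hJn] at hF
  have key := row_of_chkN (R := ZMod 11) (X := ZMod (11 ^ r) × ZMod (11 ^ s)) 11 1 11 l hl0
    (by norm_num) hpl (by norm_num) J
    (fun a b c d F z => tr11 a b c d (fun x y => F (x, y)) z.1 z.2)
    (fun a b c d => ⟨fun z => (((b : ZMod (11 ^ r)) + d * z.1) * ((a : ZMod (11 ^ r)) + 11 * c * z.1)⁻¹,
      ((c : ZMod (11 ^ s)) + a * z.2) * ((d : ZMod (11 ^ s)) + 11 * b * z.2)⁻¹), fun F z => rfl⟩)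
    (fun F a b c d a' b' c' d' ha hd ha' hd' => by
      funext z
      have h := (trm (ZMod 11) r s (fun x y => F (x, y))).1 a b c d a' b' c' d' ha hd ha' hd'
      have e1 : (1 : ℤ) * 11 = 11 := by norm_num
      rw [e1]
      exact congrFun (congrFun h z.1) z.2)
    (fun u1 u2 v1 v2 z => edge11 0 u1 u2 v1 v2 G z.1 z.2) G hG.1
    (fun z => ⟨1, 1, (z.1.val : ℤ), 11 * rY11 0 z.1 z.2,
      1 + 11 * (z.1.val : ℤ) * rY11 0 z.1 z.2, by
        have : (1 : ℤ) * (1 + 11 * (z.1.val : ℤ) * rY11 0 z.1 z.2) -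
          (z.1.val : ℤ) * (11 * rY11 0 z.1 z.2) = 1 := by ring
        rw [this]; exact one_ne_zero,
      fun u1 u2 v1 v2 => by
        unfold edge11
        simp only [one_mul, one_smul, pow_zero, zero_add, pow_one]⟩)
    (fun a b c d u1 u2 v1 v2 hd hu hv z => by
      rw [one_mul] at hd
      have hd' : a * d - 11 * b * c = 1 := by linear_combination hd
      have h := tre (ZMod 11) inferInstance r s G hG a b c d u1 u2 v1 v2 hd' hu hv z.1 z.2
      simp only [one_mul]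
      exact h)
    u1 u2 v1 v2 (TT3 L) hc
    (edge11 0 u1 u2 v1 v2 (Tl l (11 ^ r) G) x y) (x, y) (by
      rw [hF]
      simp only [one_mul])
  rw [key]
  show _ = opL (L 0) (pf11 G 0) x y + opL (L 1) (pf11 G 1) x y + opL (L 2) (pf11 G 2) x y
  rw [opL_apply11, opL_apply11, opL_apply11]
  unfold TT3
  rw [List.map_append, List.map_append, List.sum_append, List.sum_append, List.map_map, List.map_map, List.map_map]
  rfl

end Pool.Agent.Helper4.P11
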