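import Pool.Agent.Helper4.P11.M_CeV
import Pool.Agent.Helper88.P11.M_CeA
import Pool.Agent.Helper94.P11.M_CeO
import Pool.Agent.Helper4.P11.Hk
import Pool.Agent.Helper2.P11.M_Ex
import Pool.Agent.Helper2.P11.M_RelUni
import Pool.Agent.Helper84.P11.M_Lifp
import Pool.Agent.Helper84.P11.D1
import Pool.Agent.Helper16.P11.M_Rll
import Pool.Agent.Helper16.P11.M_Unb
import Pool.Agent.Helper34.P11.M_LdU
import Pool.Agent.Helper37.P11.M_LdV
import Pool.Agent.Helper67.P11.M_Om
import Pool.Agent.Helper73.P11.M_Pst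
import Pool.Agent.Helper55.P11.M_Sur
import Pool.Agent.Helper80.P11.M_Led
import Pool.Agent.Helper53.P11.M_Stp
import Pool.Agent.Helper45.P11.M_Itr
import Pool.Agent.Helper36.P11.M_Trf
import Pool.Agent.Helper63.P11.M_Tri
import Pool.Agent.Helper8.P11.M_Lif
import Pool.Agent.Helper1.P11.M_Cnt
import Pool.Agent.Helper62.P11.M_LBof
import Pool.Agent.Helper38.CV.M_Far
import Pool.Agent.Helper55.CV.M_Fex

/-!
# Project P11: the lower bound for levels `11^n`
-/

set_option autoImplicit false

namespace Pool.Agent.Helper4.P11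

open Pool.Agent.Helper84.P11
open Pool.Agent.Helper2.P11 (S11Rel S11Ex S11Uni S11Lifp)
open Pool.Agent.Helper76.P11 (dd11)
open Pool.Agent.Helper83.P1C (LBP)

theorem relT : S11Rel := Pool.Agent.Helper2.P11.hRel tre

theorem exT : S11Ex := Pool.Agent.Helper2.P11.hEx trm plA edg Pool.Agent.Helper55.CV.hFex Pool.Agent.Helper38.CV.hFar

theorem uniT : S11Uni := Pool.Agent.Helper2.P11.hUni edg tre Pool.Agent.Helper38.CV.hFar

theorem lifpT : S11Lifp := Pool.Agent.Helper84.P11.hLifp trm

theorem lifT : TLif := Pool.Agent.Helper8.P11.hLif relT lifpT exT uniT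

theorem triT : TTri := by
  have rll := Pool.Agent.Helper16.P11.hRll
  have ceG := Pool.Agent.Helper88.P11.hCeG
  have ldU := Pool.Agent.Helper34.P11.hLdU rll ceG Pool.Agent.Helper88.P11.hCeU
  have ldV := Pool.Agent.Helper37.P11.hLdV rll ceG hCeV
  have om := Pool.Agent.Helper67.P11.hOm rll ceG Pool.Agent.Helper94.P11.hCeO
  have pst := Pool.Agent.Helper73.P11.hPst
  have sol := Pool.Agent.Helper73.P11.hSol
  have sur := Pool.Agent.Helper55.P11.hSur pst sol
  have led := Pool.Agent.Helper80.P11.hLed pst sol sur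
  have stp := Pool.Agent.Helper53.P11.hStp hHk ceG
  have itr := Pool.Agent.Helper45.P11.hItr relT stp ldU ldV om
  exact Pool.Agent.Helper63.P11.hTri led exT itr Pool.Agent.Helper36.P11.hTrf

theorem unbT : TUnb := Pool.Agent.Helper16.P11.hUnb

theorem cntT : TCnt := Pool.Agent.Helper1.P11.hCnt

/-- The lower bound for levels `11^n`. -/
theorem lb11 : LBP 11 5 dd11 := Pool.Agent.Helper62.P11.hLBof triT lifT unbT cntT

end Pool.Agent.Helper4.P11
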