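import Pool.Agent.Helper4.P11.StD
import Pool.Agent.Helper84.P11.FastC

/-!
# Project P11: the certificate of `V`, entry (1, 1)
-/

set_option autoImplicit false
set_option maxRecDepth 100000

namespace Pool.Agent.Helper4.P11

open Pool.Agent.Helper84.P11

private theorem t0 : fastC (BVM 1 1) (fun w a k j => if (1 : Fin 3) = 1 ∧ w = 0 then
    (if (a, k, j) = (1, 0, 11) ∨ (a, k, j) = (11, 0, 1) then 1 else 0) else 0) = true := by
  decide +kernel

theorem ceV_11 : ∀ w : Fin 10, ∀ t ∈ M13, (11 : ℤ) ∣ cS (BVM 1 1) w t.1 t.2.1 t.2.2 -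
    (if (1 : Fin 3) = 1 ∧ w = 0 then (if t = (1, 0, 11) ∨ t = (11, 0, 1) then 1 else 0) else 0) :=
  cS_fast _ _ t0

end Pool.Agent.Helper4.P11
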