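import Pool.Agent.Helper4.P11.M_CeV_00
import Pool.Agent.Helper4.P11.M_CeV_01
import Pool.Agent.Helper4.P11.M_CeV_02
import Pool.Agent.Helper4.P11.M_CeV_11
import Pool.Agent.Helper4.P11.M_CeV_12
import Pool.Agent.Helper84.P11.M_CeV_10
import Pool.Agent.Helper84.P11.M_CeV_20
import Pool.Agent.Helper84.P11.M_CeV_21
import Pool.Agent.Helper84.P11.M_CeV_22

/-!
# Project P11: the certificates of `V`
-/

set_option autoImplicit false

namespace Pool.Agent.Helper4.P11

open Pool.Agent.Helper84.P11

/-- CEV. -/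
theorem hCeV : TCeV := by
  intro i f
  fin_cases i <;> fin_cases f
  · exact ceV_00
  · exact ceV_01
  · exact ceV_02
  · exact ceV_10
  · exact ceV_11
  · exact ceV_12
  · exact ceV_20
  · exact ceV_21
  · exact ceV_22

end Pool.Agent.Helper4.P11
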