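import Pool.Agent.Helper4.P11.HkCore

/-!
# Project P11: the rows of the Hecke operator `T_23`, row 0
-/

set_option autoImplicit false
set_option maxRecDepth 100000

namespace Pool.Agent.Helper4.P11

open Pool.Agent.Helper28.WK (SymP)
open Pool.Agent.Helper14.CV (Tl)
open Pool.Agent.Helper84.P11
open Pool.Agent.Helper2.P11 (pf11)

theorem hk23_0 (r s : ℕ) (G : ℤ → ℤ → ZMod 11)
    (hG : SymP 11 r (s + 1) G) :
    (edge11 0 1 0 0 1 (Tl 23 (11 ^ r) G) : Fn11 (11 ^ r) (11 ^ s)) = ∑ f : Fin 3, opL (T23M 0 f) (pf11 G f) :=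
  row3 23 (by norm_num) (by norm_num) [-11, -10, -9, -8, -7, -6, -5, -4, -3, -2, -1, 0, 1, 2, 3, 4, 5, 6, 7, 8, 9, 10, 11] (by decide +kernel) rfl
    (by decide +kernel) 1 0 0 1 (Or.inl (by norm_num)) (Or.inr (by norm_num)) (T23M 0) (by decide +kernel) r s G hG

end Pool.Agent.Helper4.P11
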