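import Pool.Agent.Helper4.P11.Lists
import Pool.Agent.Helper2.P11.StP
import Pool.Agent.Helper10.P11.Pj
import Pool.Agent.Helper76.P11.Defs
import Pool.Agent.Helper83.P1C.StB

/-!
# Project P11 (levels `11^n`): lower bound

Models: `Helper4/T7/StD.lean` (project T7, all modules proved, `Pool/Agent/*/T7/M_*.lean`) with three functions instead of five and words given as lists of primes; for SUR, LED the projectors `pj` as in `Helper4/S7/StD2.lean` (modules `Pool/Agent/*/S7/M_*.lean`).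
The calculus modulo 11 is `Helper84/P11/StD1.lean` (proved: `Helper84/P11/D1.lean`), the plane functions `Helper2/P11/StP.lean`, the projectors `Helper10/P11/Pj.lean` (proved).
The operators: `U` has the leading form `XY`, `V` has the leading form `X^11 Y + X Y^11` (lowering by 12), both scalar on the three functions. TEN families `c = 0, ..., 9` of functionals. Everything (lists, leading forms, solutions, triangular system up to degree 60, ranks 2, 5, 65) was checked by machine.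
-/

set_option autoImplicit false

namespace Pool.Agent.Helper4.P11

open Pool.Agent.Helper14.CV (Homog EqC act Tl StFar StFex)
open Pool.Agent.Helper28.WK (SymP Tw evw Ok)
open Pool.Agent.Helper84.P11
open Pool.Agent.Helper2.P11 (pf11 Df11 Rel11 S11Rel S11Ex S11Uni S11Lifp)
open Pool.Agent.Helper10.P11 (pj S11Pj)
open Pool.Agent.Helper76.P11 (dd11)
open Pool.Agent.Helper93.TLE (DDE)
open Pool.Agent.Helper83.P1C (LBP)

/-! ### Rows of operators -/

/-- RLL. The relation as operators (definitions only). Model: `Pool/Agent/Helper8/T7/M_Rll.lean`. -/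
def TRll : Prop := ∀ (r s : ℕ) (F : Fin 3 → Fn11 (11 ^ r) (11 ^ s)), Rel11 F →
  ∑ f : Fin 3, opL (relM f) (F f) = 0

/-- HK (from HKF, TRE, TRM). The rows of `T_l`. (helper14 does these modules.) -/
def THkL (l : ℕ) (T : Fin 3 → Fin 3 → List Tm) : Prop := ∀ (r s : ℕ) (G : ℤ → ℤ → ZMod 11), SymP 11 r (s + 1) G → ∀ i : Fin 3,
  (pf11 (Tl l (11 ^ r) G) i : Fn11 (11 ^ r) (11 ^ s)) = ∑ f : Fin 3, opL (T i f) (pf11 G f)

/-- All rows. -/
def THk : Prop := ∀ l ∈ PrM, THkL l (TM l)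

/-! ### The operators on symbols and the words -/

section

variable {R : Type} [AddCommGroup R]

/-- A combination of words. -/
def cO (W : List (ℤ × List ℕ)) (m : ℤ) (G : ℤ → ℤ → R) : ℤ → ℤ → R := (W.map fun t => t.1 • Tw m t.2 G).sum

/-- The value of the symbol of `G` at the word `O_c U^i V^j` of `{0, ∞}`. -/
def evM (m : ℤ) (G : ℤ → ℤ → R) (c i j : ℕ) : R :=
  cO (OW c) m ((cO UW m)^[i] ((cO VW m)^[j] G)) 1 0 - cO (OW c) m ((cO UW m)^[i] ((cO VW m)^[j] G)) 0 1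

end

/-- The exponents of the leading monomial `X^(aM c + i + 11j) Y^(bM c + i + j)` of the word `(c, i, j)`. -/
def aM (c : ℕ) : ℕ := ([0, 0, 2, 4, 3, 5, 5, 7, 9, 9] : List ℕ).getD c 9

/-- See `aM`. -/
def bM (c : ℕ) : ℕ := ([0, 0, 0, 0, 1, 0, 1, 1, 1, 1] : List ℕ).getD c 1

/-- The bound: the solutions exist for `eM c + i + 11j < 11^r`, `bM c + i + j < 11^s` (`eM c = aM c` except `eM 6 = 6`). -/
def eM (c : ℕ) : ℕ := ([0, 0, 2, 4, 3, 5, 6, 7, 9, 9] : List ℕ).getD c 9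

/-- The degree of the functional `c` at the origin: `0, 0, 2, 4, 4, 5, 6, 8, 10, 10`. -/
def nOM (c : ℕ) : ℕ := aM c + bM c

/-- The degree of the word. -/
def dgM (c i j : ℕ) : ℕ := aM c + bM c + 2 * i + 12 * j

/-- The second coordinate of the order (`(dgM, rhM)`, lexicographic, then `c`): the exponent of `Y`. `(dgM, rhM, c)` determines `(c, i, j)`. -/
def rhM (c i j : ℕ) : ℕ := bM c + i + j

/-- The coefficient of `X^(n - i) Y^i`, `n = nOM c`, in the form of the functional `c` on `F_f`. It vanishes for `i < bM c`. -/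
def qOM (c f i : ℕ) : ℤ :=
  ((([[[1]], [[], [1], [1]], [[1], [4, 0, 5]], [[1], [3, 0, 0, 0, 4]], [[0, 0, 0, 1], [0, 7, 0, 6]],
    [[], [1, 0, 0, 0, 0, 10], [10, 0, 0, 0, 0, 1]], [[0, 0, 0, 0, 0, 10], [0, 3, 0, 0, 0, 4]], [[0, 1, 0, 0, 0, 0, 0, 1]],
    [[0, 1], [0, 6, 0, 0, 0, 0, 0, 0, 0, 7]], [[0, 0, 0, 0, 0, 0, 0, 0, 0, 1], [0, 5, 0, 0, 0, 0, 0, 0, 0, 4]]] :
    List (List (List ℤ))).getD c []).getD f []).getD i 0

/-- The functional `c` on `F_f` as an operator (the value at the origin is taken). -/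
def MoM (c f : ℕ) {q q' : ℕ} : Module.End (ZMod 11) (Fn11 q q') :=
  ∑ i ∈ Finset.range (nOM c + 1), ((qOM c f i : ℤ) : ZMod 11) • (dX ^ (nOM c - i) * dY ^ i)

/-- The leading operator of `U`. -/
def QoM {q q' : ℕ} : Module.End (ZMod 11) (Fn11 q q') := dX * dY

/-- The leading operator of `V`. -/
def LoM {q q' : ℕ} : Module.End (ZMod 11) (Fn11 q q') := dX ^ 11 * dY + dX * dY ^ 11

/-! ### Certificates (finite computations) -/

/-- CEG. All terms are good. -/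
def TCeG : Prop :=
  (∀ l ∈ PrM, ∀ i f : Fin 3, ∀ t ∈ TM l i f, Gd t) ∧
  (∀ f : Fin 3, (∀ t ∈ relM f, Gd t) ∧ (∀ t ∈ mUM f, Gd t) ∧ (∀ t ∈ mVM f, Gd t)) ∧
  ∀ c ≤ 9, ∀ t ∈ mOM c, Gd t

/-- CEU. The coefficients of `U` of weight at most `2`: `(oB-1)(oA-1)` (`w = 0`) on the diagonal. (Lists of at most 406 terms.) -/
def TCeU : Prop := ∀ i f : Fin 3, ∀ w : Fin 10, ∀ t ∈ M13, t.1 + 10 * t.2.1 + t.2.2 ≤ 2 → (11 : ℤ) ∣ cS (BUM i f) w t.1 t.2.1 t.2.2 -
    (if i = f ∧ w = 0 ∧ t = (1, 0, 1) then 1 else 0)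

/-- CEV. The coefficients of `V` of weight at most `12`. (Lists of at most 27158 terms, in all 160669; `mVM` has 412, 416, 418 terms.) -/
def TCeV : Prop := ∀ i f : Fin 3, ∀ w : Fin 10, ∀ t ∈ M13, (11 : ℤ) ∣ cS (BVM i f) w t.1 t.2.1 t.2.2 -
    (if i = f ∧ w = 0 then (if t = (1, 0, 11) ∨ t = (11, 0, 1) then 1 else 0) else 0)

/-- CEO. The coefficients of the functionals at the origin. (Lists of at most 4061 terms.) -/
def TCeO : Prop := ∀ c ≤ 9, ∀ f : Fin 3, ∀ i < 11, ∀ j < 11, i + j ≤ nOM c →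
  (11 : ℤ) ∣ nS (BOM c f) i j - (if i + j = nOM c then qOM c f.val j else 0)

/-! ### Leading forms -/

/-- LDU (from LOW0, OPM, NFA, EXP, RLL, CEG, CEU). Leading forms of `U`. Modulo the relation (RLL, OPM) the rows are the lists `BUM`, and EXP with the certificates gives the leading forms. Model: `Pool/Agent/Helper5/T7/M_LdU.lean`. The terms of `cL UW` are good by CEG (products of good terms: OPM). -/
def TLdU : Prop := ∀ (r s : ℕ) (d : ℤ) (F : Fin 3 → Fn11 (11 ^ r) (11 ^ s)), Rel11 F → (∀ i, F i ∈ Wd11 d) →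
  ∀ i : Fin 3, (∑ f : Fin 3, opL (cL UW i f) (F f)) - QoM (F i) ∈ Wd11 (d - 3)

/-- LDV (from LOW0, OPM, NFA, EXP, RLL, CEG, CEV). Leading forms of `V`: `oW w (oB-1)^i (oD-1)^k (oA-1)^j` lowers by `i + 10k + j`, `(oB-1)(oA-1)^11 ≡ dY dX^11`, `(oB-1)^11 (oA-1) ≡ dY^11 dX` modulo operators which lower by `13` (`oA - 1 - dX`, `oB - 1 - dY` lower by `9`, so in the product by at least `9 + 11`). Model: `Pool/Agent/Helper85/T7/M_LdV.lean`. -/
def TLdV : Prop := ∀ (r s : ℕ) (d : ℤ) (F : Fin 3 → Fn11 (11 ^ r) (11 ^ s)), Rel11 F → (∀ i, F i ∈ Wd11 d) →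
  ∀ i : Fin 3, (∑ f : Fin 3, opL (cL VW i f) (F f)) - LoM (F i) ∈ Wd11 (d - 13)

/-- OM (from LOW0, OPM, VAL, RLL, CEG, CEO). The value of `O_c` at the origin, for functions of degree at most `nOM c ≤ 10`: modulo the relation the first row is `BOM c`, VAL. Model: `Pool/Agent/Helper86/T7/M_Om.lean`. -/
def TOm : Prop := ∀ (r s c : ℕ) (F : Fin 3 → Fn11 (11 ^ r) (11 ^ s)), c ≤ 9 → Rel11 F → (∀ f, F f ∈ Wd11 (nOM c : ℤ)) →
  (∑ f : Fin 3, opL (cL (OW c) 0 f) (F f)) 0 0 = ∑ f : Fin 3, (MoM c f.val (F f)) 0 0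

/-- PST (from LW1, PJ, NFA, LOW0). First-order action of `δ1 = (7 -2; 11 -3)` and `δ2 = (8 -3; 11 -4)` on functions of one torus class `k` (`pj k`). By LW1 (`-3 ≡ om_6 · 7`, `om10 6 = 9`; `-4 ≡ om_4 · 8`, `om10 4 = 27 ≡ 5`): `op11 7 (-2) 1 (-3) ≡ oW 6 (1 + 6 dX + 7 dY)`, `op11 8 (-3) 1 (-4) ≡ oW 4 (1 + dX + 8 dY)` modulo operators which lower by two (`b a⁹`, `c a⁹ om⁹` modulo 11: `-2·7⁹ ≡ 6`, `7⁹·9⁹ ≡ 7`, `-3·8⁹ ≡ 1`, `8⁹·5⁹ ≡ 8`), and by PJ `oW w * pj c ≡ om_w^c • pj c`, `dX * pj k ≡ pj (k + 9) * dX`, `dY * pj k ≡ pj (k + 1) * dY`. -/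
def TPst : Prop := ∀ (r s k : ℕ),
  Lw ((op11 7 (-2) 1 (-3) - (9 : ZMod 11) ^ k • 1 - (6 * (9 : ZMod 11) ^ (k + 9)) • dX - (7 * (9 : ZMod 11) ^ (k + 1)) • dY) * pj k :
    Module.End (ZMod 11) (Fn11 (11 ^ r) (11 ^ s))) 2 ∧
  Lw ((op11 8 (-3) 1 (-4) - (5 : ZMod 11) ^ k • 1 - (5 : ZMod 11) ^ (k + 9) • dX - (8 * (5 : ZMod 11) ^ (k + 1)) • dY) * pj k :
    Module.End (ZMod 11) (Fn11 (11 ^ r) (11 ^ s))) 2

/-- SOL (from LW1, PJ, NFA, LOW0). The classes `k` with `5 ∤ k` are solved by `a - δ1 a` in the top degree: `a = ∑_(5 ∤ k) (1 - 9^k)⁻¹ pj k E`, `op11 7 (-2) 1 (-3) ≡ oW 6` modulo `Lw 1`, `oW 6 * pj k ≡ 9^k • pj k`, and `∑_k pj k = 1`, `pj 0 E`, `pj 5 E` have degree at most `e - 1`. -/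
def TSol : Prop := ∀ (r s : ℕ) (e : ℤ) (E : Fn11 (11 ^ r) (11 ^ s)), E ∈ Wd11 e → pj 0 E ∈ Wd11 (e - 1) → pj 5 E ∈ Wd11 (e - 1) →
  ∃ a : Fn11 (11 ^ r) (11 ^ s), a ∈ Wd11 e ∧ E - (a - op11 7 (-2) 1 (-3) a) ∈ Wd11 (e - 1)

/-- SUR (from TRM, LOW0, NFA, LW1, PJ, BB, PST, SOL). Solving the inhomogeneous relation below the top degree. By induction (downwards until `Wd11 (-1) = 0`) it is enough to solve up to an error in `Wd11 (e - 1)`. Every `E ∈ Wd11 e`, `e < 11^r + 11^s - 2`, is `dX P + dY Q` with `P, Q ∈ Wd11 (e+1)` (BB), so `pj c E ≡ dX P' + dY Q'`, `P' = pj (c+1) P`, `Q' = pj (c+9) Q`.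
For `c = 0, 5` take `F0 = -P'` (`-(dX)(-P')`), `F1 = 4 Q'`, `F2 = 9 Q'`, `k = c + 9` the class of `Q'`: `9^k = 5`, `5^k = 9`, so `-(F1 - δ1 F1) - (F2 - δ2 F2)` has the top part `-(4 (1 - 5) + 9 (1 - 9)) Q' = 88 Q' = 0`, the `dY` part `(4·7·9^(k+1) + 9·8·5^(k+1)) dY Q' = 100 dY Q' = dY Q'` and a `dX` part of class `c - 2` (`pj (c + 8)`), which is solved by SOL (`F1` of degree `e`), as are the classes `5 ∤ c` of `E`. Model: `Pool/Agent/*/S7/M_Sur.lean`. -/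
def TSur : Prop := ∀ (r s : ℕ) (e : ℤ) (E : Fn11 (11 ^ r) (11 ^ s)), e < 11 ^ r + 11 ^ s - 2 → E ∈ Wd11 e →
  ∃ F : Fin 3 → Fn11 (11 ^ r) (11 ^ s), (∀ f, F f ∈ Wd11 (e + 1)) ∧ (Df11 F : Fn11 (11 ^ r) (11 ^ s)) = E

/-- The leading coefficients of the solution with index `c`: `F_f ≡ tpM c f • bb11 A B` (for `c = 6` and `f = 0` also `3 • bb11 (A+1) (B-1)`). -/
def tpM (c : ℕ) (f : Fin 3) : ZMod 11 :=
  (([![1, 0, 0], ![0, 1, 0], ![1, 0, 0], ![1, 0, 0], ![7, 1, 4], ![0, 1, 0], ![8, 1, 5], ![4, 1, 9], ![1, 0, 0], ![5, 1, 3]] :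
    List (Fin 3 → ZMod 11)).getD c ![5, 1, 3]) f

/-- The leading function of index `c` on `F_f`. -/
def ldM (c i j : ℕ) (f : Fin 3) {q q' : ℕ} : Fn11 q q' :=
  tpM c f • bb11 (aM c + i + 11 * j) (bM c + i + j) +
    (if c = 6 ∧ f = 0 then (3 : ZMod 11) • bb11 (aM c + i + 11 * j + 1) (bM c + i + j - 1) else 0)

/-- LED (from TRM, LOW0, NFA, PJ, BB, PST, SOL, SUR). Solutions of the relation with given leading forms. `A = aM c + i + 11j`, `B = bM c + i + j`, `d = A + B`, class `k = A - B` modulo `10`: `0, 0, 2, 4, 2, 5, 4, 6, 8, 8` for `c = 0, ..., 9`. Start with the projected functions `F_f = tpM c f • pj k (bb11 A B)`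
(`≡ bb11 A B` modulo degree `d - 1`, PJ) and, for `c = 6`, `F0` also `3 pj 6 (bb11 (A+1) (B-1))`. The defect `E = Df11 F`: the part of degree `d` is `-((1 - 9^k) t1 + (1 - 5^k) t2)` times `pj k bb`, which is `0` (`t2 = 9^k t1`, or `t1 = t2 = 0`, or `k = 0, 5`), so `E` has degree at most `d - 1`, and by PST its part of degree `d - 1` is
`(-t0 + 6·9^(k+9) t1 + 5^(k+9) t2) dX pj k bb` of class `k - 1` and `(7·9^(k+1) t1 + 8·5^(k+1) t2) dY pj k bb` of class `k + 1`. Classes divisible by `5` occur only for `c = 7` (`k - 1 = 5`: `-4 + 6 + 9 = 11 = 0`), for `c = 6` (`k + 1 = 5`: `7 + 8·5 = 47 = 3` times `dY pj 4 bb11 A B ≡ pj 5 bb11 A (B-1)`, cancelled by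
`-3 dX pj 6 bb11 (A+1) (B-1) ≡ -3 pj 5 bb11 A (B-1)`; all exponents are in range because `eM 6 = aM 6 + 1` and `bM 6 = 1`), for `c = 3` (`k + 1 = 5`, `t1 = t2 = 0`: nothing; `k - 1 = 3`). So `pj 0 E`, `pj 5 E` have degree at most `d - 2`; SOL (add `a` to `F1`: `Df11` changes by `-(a - δ1 a)`) makes the defect of degree at most `d - 2`, and
`d - 2 < 11^r + 11^s - 2`: subtract the solution of SUR (degree at most `d - 1`). Model: `Pool/Agent/*/S7/M_Led.lean`. -/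
def TLed : Prop := ∀ (r s c i j : ℕ), c ≤ 9 → eM c + i + 11 * j < 11 ^ r → bM c + i + j < 11 ^ s →
  ∃ F : Fin 3 → Fn11 (11 ^ r) (11 ^ s), Rel11 F ∧ ∀ f : Fin 3, F f - ldM c i j f ∈ Wd11 ((dgM c i j : ℤ) - 1)

/-- STP (from HKB, HK, OPM, CEG, PLA). A combination of words of primes of `PrM` preserves symbols, and its plane functions are given by the lists: `Tw m (l :: ls) G = Tl l m (Tw m ls G)`, induction on the word (`wL (l :: l' :: ls) = mm3 (TM l) (wL (l' :: ls))`, `opL (mulL ..) = opL * opL` for good lists, OPM), then on the combination. Goodness of `wL` by induction (OPM).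
The value of `F0` at the point `(0,0)`: the standard matrix is `1` (`rY11 0 0 0 = 0`). Model: `Pool/Agent/Helper63/T7/M_Stp.lean`. -/
def TStp : Prop := ∀ (r s : ℕ) (G : ℤ → ℤ → ZMod 11), SymP 11 r (s + 1) G →
  (∀ W : List (ℤ × List ℕ), (∀ t ∈ W, ∀ l ∈ t.2, l ∈ PrM) → SymP 11 r (s + 1) (cO W (11 ^ r) G) ∧
    ∀ i : Fin 3, (pf11 (cO W (11 ^ r) G) i : Fn11 (11 ^ r) (11 ^ s)) = ∑ f : Fin 3, opL (cL W i f) (pf11 G f)) ∧
  ∀ H : ℤ → ℤ → ZMod 11, (pf11 H 0 : Fn11 (11 ^ r) (11 ^ s)) 0 0 = H 1 0 - H 0 1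

/-- ITR (from REL, STP, LOW0, LDU, LDV, OM). Iteration, `m = 11^r`, for a symbol `G` modulo 11 of level `(r, s+1)` whose three functions have degree at most `d`. By LDU, LDV, REL the functions of `U G` have degree at most `d - 2` and are `≡ QoM F_f(G)` modulo `Wd11 (d - 3)`; for `V`: `d - 12`, `LoM F_f(G)`, `Wd11 (d - 13)`. So the functions of
`U^i V^j G` have degree at most `d' = d - 2i - 12j`, and are `≡ QoM^i LoM^j F_f(G)` modulo `Wd11 (d' - 1)`. OM for `d' ≤ nOM c` (`MoM c f` kills degree `nOM c - 1`). Model: `Pool/Agent/Helper51/T7/M_Itr.lean` (the same with `6` instead of `12`). -/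
def TItr : Prop := ∀ (r s : ℕ) (G : ℤ → ℤ → ZMod 11) (d : ℕ), SymP 11 r (s + 1) G →
  (∀ f : Fin 3, (pf11 G f : Fn11 (11 ^ r) (11 ^ s)) ∈ Wd11 (d : ℤ)) →
  ∀ c i j : ℕ, c ≤ 9 →
  (d < dgM c i j → evM (11 ^ r) G c i j = 0) ∧
  (dgM c i j = d → evM (11 ^ r) G c i j =
    ∑ f : Fin 3, ((MoM c f.val * QoM ^ i * LoM ^ j : Module.End (ZMod 11) (Fn11 (11 ^ r) (11 ^ s))) (pf11 G f)) 0 0)

/-- TRF (from LOW0, BB). The forms. `MoM c f * QoM^i * LoM^j` is a form of degree `dgM c i j` in the commuting operators `dX`, `dY`, so it lowers by `dgM c i j`, and the value of a monomial `dX^p dY^q`, `p + q = A + B`, on `bb11 A B` at the origin is `1` if `(p, q) = (A, B)` and `0` otherwise. `qOM c f l = 0` for `l < bM c` (finite check), so the form is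
`(q_b X^(n-b) Y^b + Y^(b+1) ...) (XY)^i (X^11 Y + X Y^11)^j` with `b = bM c`: the lowest exponent of `Y` is at least `b + i + j = rhM c i j`, with the coefficient `q_b` there. Model: `Pool/Agent/Helper71/T7/M_Trf.lean`. -/
def TTrf : Prop := ∀ (r s : ℕ),
  (∀ (c i j : ℕ) (f : Fin 3), c ≤ 9 → Lw (MoM c f.val * QoM ^ i * LoM ^ j : Module.End (ZMod 11) (Fn11 (11 ^ r) (11 ^ s))) (dgM c i j)) ∧
  ∀ (c i j A B : ℕ) (f : Fin 3), c ≤ 9 → A < 11 ^ r → B < 11 ^ s → A + B = dgM c i j →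
    (B < rhM c i j → ((MoM c f.val * QoM ^ i * LoM ^ j : Module.End (ZMod 11) (Fn11 (11 ^ r) (11 ^ s))) (bb11 A B)) 0 0 = 0) ∧
    (B = rhM c i j → ((MoM c f.val * QoM ^ i * LoM ^ j : Module.End (ZMod 11) (Fn11 (11 ^ r) (11 ^ s))) (bb11 A B)) 0 0 =
      ((qOM c f.val (bM c) : ℤ) : ZMod 11))

/-- TRI (from LOW0, BB, LED, EX, ITR, TRF). Triangular system of symbols modulo 11. For `κ = (c, i, j)` take LED and the symbol `G` of EX; `A = aM c + i + 11j`, `B = bM c + i + j = rhM κ`, `d = A + B`. By ITR `evM G κ' = 0` if `dgM κ' > d`; let `dgM κ' = d`: terms of lower degree are killed (TRF (1)), so the value is the sum over `f` of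
`tpM c f` times the values of TRF on `bb11 A B`, and for `c = 6` `3` times the value on `F0` of `bb11 (A+1) (B-1)`. If `rhM κ' > rhM κ` all are zero (`B - 1 < B < rhM κ'`). If `rhM κ' = rhM κ` then `B - 1 < rhM κ'` (the extra term is zero) and the value is `P(c', c) = ∑_f tpM c f • qOM c' f (bM c')`; `dgM κ' = d` and `bM c' + i' + j' = bM c + i + j` give
`aM c' - bM c' + 10 j' = aM c - bM c + 10 j`, so `aM c' - bM c' ≡ aM c - bM c` modulo `10`. FINITE CHECK (`decide`): for `c, c' ≤ 9` with this congruence `P(c', c) = 0` if `c' ≠ c` and `≠ 0` if `c' = c` (`1, 1, 1, 1, 7, 1, 3, 4, 1, 5`). Model: `Pool/Agent/Helper44/T7/M_Tri.lean`. -/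
def TTri : Prop := ∀ (r s c i j : ℕ), c ≤ 9 → eM c + i + 11 * j < 11 ^ r → bM c + i + j < 11 ^ s →
  ∃ G : ℤ → ℤ → ZMod 11, SymP 11 r (s + 1) G ∧ evM (11 ^ r) G c i j ≠ 0 ∧
    ∀ c' i' j' : ℕ, c' ≤ 9 → evM (11 ^ r) G c' i' j' ≠ 0 →
      (dgM c' i' j' < dgM c i j ∨ (dgM c' i' j' = dgM c i j ∧
        (rhM c' i' j' < rhM c i j ∨ (rhM c' i' j' = rhM c i j ∧ c' = c))))

/-! ### Integral symbols and the lower bound -/

/-- LIF (from REL, LIFP, EX, UNI). Lifting symbols: every symbol `g` modulo 11 lifts to an integral symbol `G` with the same `evM` modulo 11. Model: `Pool/Agent/Helper9/T7/M_Lif.lean`. -/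
def TLif : Prop := ∀ (r s : ℕ) (g : ℤ → ℤ → ZMod 11), SymP 11 r (s + 1) g →
  ∃ G : ℤ → ℤ → ℤ, SymP 11 r (s + 1) G ∧
    ∀ c i j : ℕ, ((evM (11 ^ r) G c i j : ℤ) : ZMod 11) = evM (11 ^ r) g c i j

/-- UNB (from `S11Unb`, proved). Back to `Γ₀(11^n)` and to complex values (`cO` is a combination of words; `Tl l 1` commutes with the transport). Model: `Pool/Agent/Helper80/T7/M_Unb.lean`. -/
def TUnb : Prop := ∀ (r s : ℕ) (G : ℤ → ℤ → ℤ), SymP 11 r s G →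
  SymP 11 0 (r + s) (fun p q => ((G (11 ^ r * p) q : ℤ) : ℂ)) ∧
    ∀ c i j : ℕ, evM 1 (fun p q => ((G (11 ^ r * p) q : ℤ) : ℂ)) c i j = ((evM (11 ^ r) G c i j : ℤ) : ℂ)

/-- CNT. Counting the index sets. `DDE 5 dd11 (2k) = 5t²`, `DDE 5 dd11 (2k+1) = 55t² + 10t` with `t = 11^(k-1)` (`k ≥ 1`; induction: `5, 65, 605, 6765`). First set: the first condition follows from the second (`eM c ≤ 10`, `b = 0`: `e ≤ 5`); `t(t+1)/2` for `c = 0, 1, 2, 3, 5`, `t(t-1)/2` for `c = 4, 6, 7, 8, 9`. Second set: the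
second condition follows from the first (`bM c ≤ eM c`); `∑_{j<t} (11t - 11j - e) = 11t(t+1)/2 - e t` for `e = eM c = 0, 0, 2, 4, 3, 5, 6, 7, 9, 9` (sum `45`). Model: `Pool/Agent/Helper96/T7/M_Cnt.lean`. -/
def TCnt : Prop :=
  (∀ k : ℕ, 1 ≤ k → ((Finset.range 10 ×ˢ Finset.range (11 ^ k) ×ˢ Finset.range (11 ^ k)).filter
    fun t : ℕ × ℕ × ℕ => eM t.1 + t.2.1 + 11 * t.2.2 < 11 ^ k ∧ bM t.1 + t.2.1 + t.2.2 < 11 ^ (k - 1)).card = DDE 5 dd11 (2 * k)) ∧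
  (∀ k : ℕ, 1 ≤ k → ((Finset.range 10 ×ˢ Finset.range (11 ^ k) ×ˢ Finset.range (11 ^ k)).filter
    fun t : ℕ × ℕ × ℕ => eM t.1 + t.2.1 + 11 * t.2.2 < 11 ^ k ∧ bM t.1 + t.2.1 + t.2.2 < 11 ^ k).card = DDE 5 dd11 (2 * k + 1))

/-- LB from TRI, LIF, UNB, CNT. Lexicographic order of `(dgM, rhM, c)`, which determines the index; the set of all `K` with `evw 1 ls K = 0` for all
words is stable under `Tl l 1`, `l` in `PrM`, sums and integer multiples. Level `11^n`: `n = 2k`: `(r, s) = (k, k - 1)`, `n = 2k + 1`: `(k, k)` (`SymP 11 r (s + 1)`). Models: `Pool/Agent/Helper46/T7/M_LBof.lean`, `Pool/Agent/Helper7/TK7/M_LBof.lean`. -/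
def TLBof : Prop := TTri → TLif → TUnb → TCnt → LBP 11 5 dd11

end Pool.Agent.Helper4.P11
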