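import Pool.Agent.Helper4.P11.ListsA
import Pool.Agent.Helper4.P11.ListsB
import Pool.Agent.Helper4.P11.ListsC
import Pool.Agent.Helper4.P11.ListsD
import Pool.Agent.Helper4.P11.ListsE
import Pool.Agent.Helper4.P11.ListsF

/-!
# Project P11: all rows `T2M, T3M, T5M, T7M, T13M, T17M, T19M, T23M, T29M, T31M, T37M, T41M, T47M`
-/
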